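import Pool.Agent.W477.GM.Stms

set_option maxHeartbeats 1000000

/-!
# Project GM: the two sets of lengths, and merging conditions
-/

namespace Pool.Agent.W477.GM.W19CAX

open Pool.Agent.W477.GM

theorem cax_holds : P_CAX := by
  constructor
  · refine ⟨inferInstance, fun c d _ => le_rfl, fun c n => ⟨c, le_rfl, ENat.natCast_lt_top n⟩⟩
  · refine ⟨?_, ?_, ?_⟩
    · have h : Function.Injective Str.l := fun a b h => Str.ext' h
      exact h.countable
    · intro c d h
      have h1 : d.l <+: c.l := h
      unfold slen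
      exact_mod_cast h1.length_le
    · intro c n
      refine ⟨⟨c.l ++ List.replicate (n + 1) false⟩, List.prefix_append _ _, ?_⟩
      unfold slen
      have h1 : n < (c.l ++ List.replicate (n + 1) false).length := by
        rw [List.length_append, List.length_replicate]
        omega
      exact_mod_cast h1

section

variable {C : Type} {L : C → ℕ∞}

open Classical in
theorem mg_len (K : J → Prop) (u t : Cn C L) (j : J) :
    (mg K u t).len j = if K j then u.len j else if (j.2.1 : ℕ∞) < L u.c then t.len j else 0 := rfl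

open Classical in
theorem mg_bit (K : J → Prop) (u t : Cn C L) (j : J) (o : Ordinal.{0}) :
    (mg K u t).bit j o = if K j then u.bit j o else
      if (j.2.1 : ℕ∞) < L u.c then t.bit j o else false := rfl

theorem mg_c (K : J → Prop) (u t : Cn C L) : (mg K u t).c = u.c := rfl

open Classical in
theorem rs_len (K : J → Prop) (p : Cn C L) (j : J) :
    (rs K p).len j = if K j then p.len j else 0 := rfl

open Classical in
theorem rs_bit (K : J → Prop) (p : Cn C L) (j : J) (o : Ordinal.{0}) :
    (rs K p).bit j o = if K j then p.bit j o else false := rfl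

theorem rs_c (K : J → Prop) (p : Cn C L) : (rs K p).c = p.c := rfl

theorem fl_len (z : J → Ordinal.{0} → Bool) (p : Cn C L) (j : J) : (fl z p).len j = p.len j := rfl

theorem fl_c (z : J → Ordinal.{0} → Bool) (p : Cn C L) : (fl z p).c = p.c := rfl

open Classical in
theorem fl_bit (z : J → Ordinal.{0} → Bool) (p : Cn C L) (j : J) (o : Ordinal.{0}) :
    (fl z p).bit j o = if o < p.len j then xor (p.bit j o) (z j o) else false := rfl

variable [PartialOrder C] [OrderTop C]

theorem triv {a b : Ordinal.{0}} {f g : Ordinal.{0} → Bool} (h : a = 0) :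
    a ≤ b ∧ ∀ o, o < a → f o = g o :=
  ⟨h ▸ zero_le, fun o ho => absurd (h ▸ ho) (not_lt.2 zero_le)⟩

theorem mg_holds' (hC : CAx C L) : MgF C L := by
  constructor
  · intro K u t
    rfl
  · -- le_u
    intro K u t h
    rw [Cn.le_def]
    refine ⟨le_rfl, fun j => ?_⟩
    by_cases hj : K j
    · rw [mg_len, if_pos hj]
      refine ⟨le_rfl, fun o _ => ?_⟩
      rw [mg_bit, if_pos hj]
    · apply triv
      rw [← h, rs_len, if_neg hj]
  · -- mono
    intro K u u' t t' hu ht
    rw [Cn.le_def] at hu ht ⊢
    refine ⟨hu.1, fun j => ?_⟩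
    by_cases hj : K j
    · rw [mg_len, mg_len, if_pos hj, if_pos hj]
      refine ⟨(hu.2 j).1, fun o ho => ?_⟩
      rw [mg_bit, mg_bit, if_pos hj, if_pos hj]
      exact (hu.2 j).2 o ho
    · by_cases hL : (j.2.1 : ℕ∞) < L u'.c
      · have hL2 : (j.2.1 : ℕ∞) < L u.c := lt_of_lt_of_le hL (hC.anti _ _ hu.1)
        rw [mg_len, mg_len, if_neg hj, if_neg hj, if_pos hL, if_pos hL2]
        refine ⟨(ht.2 j).1, fun o ho => ?_⟩
        rw [mg_bit, mg_bit, if_neg hj, if_neg hj, if_pos hL, if_pos hL2]
        exact (ht.2 j).2 o ho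
      · apply triv
        rw [mg_len, if_neg hj, if_neg hL]
  · -- le_of
    intro K r u t hu ht
    rw [Cn.le_def] at hu ht ⊢
    refine ⟨hu.1, fun j => ?_⟩
    by_cases hj : K j
    · rw [mg_len, if_pos hj]
      refine ⟨(hu.2 j).1, fun o ho => ?_⟩
      rw [mg_bit, if_pos hj]
      exact (hu.2 j).2 o ho
    · by_cases hL : (j.2.1 : ℕ∞) < L u.c
      · rw [mg_len, if_neg hj, if_pos hL]
        refine ⟨(ht.2 j).1, fun o ho => ?_⟩
        rw [mg_bit, if_neg hj, if_pos hL]
        exact (ht.2 j).2 o ho
      · apply triv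
        rw [mg_len, if_neg hj, if_neg hL]
  · -- rs
    intro K u t
    refine Cn.ext' rfl (fun j => ?_) (fun j o _ => ?_)
    · by_cases hj : K j
      · rw [rs_len, rs_len, if_pos hj, if_pos hj, mg_len, if_pos hj]
      · rw [rs_len, rs_len, if_neg hj, if_neg hj]
    · by_cases hj : K j
      · rw [rs_bit, rs_bit, if_pos hj, if_pos hj, mg_bit, if_pos hj]
      · rw [rs_bit, rs_bit, if_neg hj, if_neg hj]
  · -- flip
    intro K u t z hz
    refine Cn.ext' rfl (fun j => ?_) (fun j o ho => ?_)
    · rw [fl_len, mg_len, mg_len, fl_len, fl_c]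
    · rw [fl_len] at ho
      rw [fl_bit, if_pos ho, mg_bit, mg_bit, fl_c, fl_bit]
      rw [mg_len] at ho
      by_cases hj : K j
      · rw [if_pos hj] at ho
        rw [if_pos hj, if_pos hj, if_pos ho]
      · rw [if_neg hj] at ho
        by_cases hL : (j.2.1 : ℕ∞) < L u.c
        · rw [if_pos hL] at ho
          have h0 : t.len j ≠ 0 := fun h => absurd (h ▸ ho) (not_lt.2 zero_le)
          rw [if_neg hj, if_neg hj, if_pos hL, hz j hj h0 o, Bool.xor_false]
        · rw [if_neg hL] at ho
          exact absurd ho (not_lt.2 zero_le)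
  · -- le_q
    intro K s q h
    rw [Cn.le_def] at h ⊢
    have hc : s.c ≤ q.c := h.1
    refine ⟨hc, fun j => ?_⟩
    by_cases hj : K j
    · have h1 := h.2 j
      rw [rs_len, if_pos hj] at h1
      rw [mg_len, if_pos hj]
      refine ⟨h1.1, fun o ho => ?_⟩
      have h2 := h1.2 o ho
      rw [rs_bit, if_pos hj] at h2
      rw [mg_bit, if_pos hj]
      exact h2
    · by_cases h0 : q.len j = 0
      · exact triv h0
      · have hL : (j.2.1 : ℕ∞) < L s.c := lt_of_lt_of_le (q.sup j h0) (hC.anti _ _ hc)
        rw [mg_len, if_neg hj, if_pos hL]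
        refine ⟨le_rfl, fun o _ => ?_⟩
        rw [mg_bit, if_neg hj, if_pos hL]
  · -- decomp
    intro K K' r hK
    refine Cn.ext' rfl (fun j => ?_) (fun j o ho => ?_)
    · by_cases hj : K j
      · rw [mg_len, if_pos hj, rs_len, rs_len, if_pos hj, if_pos (hK j hj)]
      · rw [mg_len, if_neg hj]
        by_cases h0 : (rs K' r).len j = 0
        · rw [h0]
          split_ifs <;> rfl
        · have h5 : (j.2.1 : ℕ∞) < L (rs K r).c := (rs K' r).sup j h0
          rw [if_pos h5]
    · have h0 : (rs K' r).len j ≠ 0 := fun h => absurd (h ▸ ho) (not_lt.2 zero_le)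
      by_cases hj : K j
      · rw [mg_bit, if_pos hj, rs_bit, rs_bit, if_pos hj, if_pos (hK j hj)]
      · have h5 : (j.2.1 : ℕ∞) < L (rs K r).c := (rs K' r).sup j h0
        rw [mg_bit, if_neg hj, if_pos h5]

end

theorem mg_holds : P_MG := by
  intro C _ _ L hC
  exact mg_holds' hC

end Pool.Agent.W477.GM.W19CAX
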